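import Pool.Agent.Helper519.PiMain

/-!
Monotone renorming of a Banach space with a Schauder basis, and the metric approximation property
of the second renorming `NSp`.
-/

open Filter Topology

set_option autoImplicit false

namespace Pool.Agent.Y496.SB

open Pool.Agent.Helper519.Renorm

noncomputable section

/-- A Schauder basis with its coordinate functionals. -/
structure SBas (𝕜 : Type*) [RCLike 𝕜] (X : Type*) [NormedAddCommGroup X] [NormedSpace 𝕜 X] where
  x : ℕ → X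
  f : ℕ → StrongDual 𝕜 X
  ortho : ∀ i j, f i (x j) = if i = j then 1 else 0
  conv : ∀ y, Tendsto (fun n => ∑ j ∈ Finset.range n, f j y • x j) atTop (𝓝 y)

variable {𝕜 : Type*} [RCLike 𝕜] {X : Type*} [NormedAddCommGroup X] [NormedSpace 𝕜 X]

/-- The partial sum operators. -/
def P (S : SBas 𝕜 X) (n : ℕ) : X →ₗ[𝕜] X :=
  ∑ j ∈ Finset.range n, ((S.f j).smulRight (S.x j) : X →L[𝕜] X)

lemma P_apply (S : SBas 𝕜 X) (n : ℕ) (y : X) :
    P S n y = ∑ j ∈ Finset.range n, S.f j y • S.x j := by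
  rw [P, LinearMap.sum_apply]
  rfl

lemma f_P (S : SBas 𝕜 X) (n i : ℕ) (y : X) : S.f i (P S n y) = if i < n then S.f i y else 0 := by
  rw [P_apply, map_sum]
  simp only [map_smul, smul_eq_mul, S.ortho]
  split_ifs with h
  · rw [Finset.sum_eq_single i]
    · simp
    · intro j _ hj
      rw [if_neg (Ne.symm hj), mul_zero]
    · intro h'
      exact absurd (Finset.mem_range.2 h) h'
  · refine Finset.sum_eq_zero fun j hj => ?_
    rw [if_neg, mul_zero]
    rintro rfl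
    exact h (Finset.mem_range.1 hj)

lemma P_x (S : SBas 𝕜 X) (n i : ℕ) : P S n (S.x i) = if i < n then S.x i else 0 := by
  rw [P_apply]
  simp only [S.ortho]
  split_ifs with h
  · rw [Finset.sum_eq_single i]
    · simp
    · intro j _ hj
      rw [if_neg hj, zero_smul]
    · intro h'
      exact absurd (Finset.mem_range.2 h) h'
  · refine Finset.sum_eq_zero fun j hj => ?_
    rw [if_neg, zero_smul]
    rintro rfl
    exact h (Finset.mem_range.1 hj)

lemma P_P (S : SBas 𝕜 X) (n m : ℕ) (y : X) : P S n (P S m y) = P S (min n m) y := by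
  rw [P_apply S n]
  simp only [f_P]
  rw [P_apply]
  simp only [ite_smul, zero_smul]
  rw [← Finset.sum_filter]
  congr 1
  ext j
  simp only [Finset.mem_filter, Finset.mem_range]
  omega

lemma exists_bound [CompleteSpace X] (S : SBas 𝕜 X) : ∃ K : ℝ, 0 < K ∧ ∀ n y,
    ‖P S n y‖ ≤ K * ‖y‖ := by
  let Q : ℕ → X →L[𝕜] X := fun n => ∑ j ∈ Finset.range n, (S.f j).smulRight (S.x j)
  have hQ : ∀ n y, Q n y = P S n y := by
    intro n y
    rw [P_apply]
    simp only [Q, sum_apply, ContinuousLinearMap.smulRight_apply]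
  obtain ⟨C, hC⟩ := banach_steinhaus (g := Q) (by
    intro y
    have h1 := (S.conv y).norm.bddAbove_range
    obtain ⟨C, hC⟩ := h1
    refine ⟨C, fun n => ?_⟩
    rw [hQ, P_apply]
    exact hC ⟨n, rfl⟩)
  refine ⟨|C| + 1, by positivity, fun n y => ?_⟩
  rw [← hQ]
  exact (Q n).le_of_opNorm_le ((hC n).trans ((le_abs_self C).trans (by linarith))) y

/-- The constant of the basis. -/
def KK [CompleteSpace X] (S : SBas 𝕜 X) : ℝ := (exists_bound S).choose

lemma KK_pos [CompleteSpace X] (S : SBas 𝕜 X) : 0 < KK S := (exists_bound S).choose_spec.1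

lemma P_le [CompleteSpace X] (S : SBas 𝕜 X) (n : ℕ) (y : X) : ‖P S n y‖ ≤ KK S * ‖y‖ :=
  (exists_bound S).choose_spec.2 n y

/-- The monotone norm. -/
def mn (S : SBas 𝕜 X) (y : X) : ℝ := ⨆ n, ‖P S n y‖

lemma bdd [CompleteSpace X] (S : SBas 𝕜 X) (y : X) :
    BddAbove (Set.range fun n => ‖P S n y‖) := by
  refine ⟨KK S * ‖y‖, ?_⟩
  rintro _ ⟨n, rfl⟩
  exact P_le S n y

lemma le_mn' [CompleteSpace X] (S : SBas 𝕜 X) (n : ℕ) (y : X) : ‖P S n y‖ ≤ mn S y :=
  le_ciSup (bdd S y) n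

lemma mn_le (S : SBas 𝕜 X) (y : X) (C : ℝ) (h : ∀ n, ‖P S n y‖ ≤ C) : mn S y ≤ C :=
  ciSup_le h

lemma mn_le_norm [CompleteSpace X] (S : SBas 𝕜 X) (y : X) : mn S y ≤ KK S * ‖y‖ :=
  mn_le S y _ fun n => P_le S n y

lemma norm_le_mn [CompleteSpace X] (S : SBas 𝕜 X) (y : X) : ‖y‖ ≤ mn S y := by
  refine le_of_tendsto (S.conv y).norm (Eventually.of_forall fun n => ?_)
  rw [← P_apply]
  exact le_mn' S n y

lemma mn_add [CompleteSpace X] (S : SBas 𝕜 X) (y z : X) : mn S (y + z) ≤ mn S y + mn S z :=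
  mn_le S _ _ fun n => by
    rw [map_add]
    exact (norm_add_le _ _).trans (add_le_add (le_mn' S n y) (le_mn' S n z))

lemma mn_smul_le [CompleteSpace X] (S : SBas 𝕜 X) (a : 𝕜) (y : X) :
    mn S (a • y) ≤ ‖a‖ * mn S y :=
  mn_le S _ _ fun n => by
    rw [map_smul, norm_smul]
    exact mul_le_mul_of_nonneg_left (le_mn' S n y) (norm_nonneg a)

lemma mn_P [CompleteSpace X] (S : SBas 𝕜 X) (m : ℕ) (y : X) : mn S (P S m y) ≤ mn S y :=
  mn_le S _ _ fun n => by
    rw [P_P]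
    exact le_mn' S _ y

lemma mn_zero [CompleteSpace X] (S : SBas 𝕜 X) : mn S (0 : X) = 0 := by
  refine le_antisymm (mn_le S _ _ fun n => by rw [map_zero, norm_zero]) ?_
  exact (norm_nonneg _).trans (norm_le_mn S 0)

lemma mn_neg (S : SBas 𝕜 X) (y : X) : mn S (-y) = mn S y := by
  unfold mn
  congr 1
  funext n
  rw [map_neg, norm_neg]

/-- The space with the monotone norm. -/
def MSp (_ : SBas 𝕜 X) : Type _ := X

instance (S : SBas 𝕜 X) : AddCommGroup (MSp S) := inferInstanceAs (AddCommGroup X)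

instance (S : SBas 𝕜 X) : Module 𝕜 (MSp S) := inferInstanceAs (Module 𝕜 X)

instance [CompleteSpace X] (S : SBas 𝕜 X) : NormedAddCommGroup (MSp S) :=
  AddGroupNorm.toNormedAddCommGroup
    { toFun := fun y : X => mn S y
      map_zero' := mn_zero S
      add_le' := fun y z => mn_add S y z
      neg' := fun y => mn_neg S y
      eq_zero_of_map_eq_zero' := fun y hy => by
        have h1 := norm_le_mn S y
        have h2 : mn S y = 0 := hy
        rw [h2] at h1
        exact norm_le_zero_iff.mp h1 }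

/-- The identity map. -/
def θ (S : SBas 𝕜 X) : X ≃ₗ[𝕜] MSp S := LinearEquiv.refl 𝕜 X

lemma norm_θ [CompleteSpace X] (S : SBas 𝕜 X) (y : X) : ‖θ S y‖ = mn S y := rfl

instance [CompleteSpace X] (S : SBas 𝕜 X) : NormedSpace 𝕜 (MSp S) where
  norm_smul_le a y := mn_smul_le S a ((θ S).symm y)

/-- The identity as a continuous linear equivalence. -/
def Θ [CompleteSpace X] (S : SBas 𝕜 X) : X ≃L[𝕜] MSp S :=
  (θ S).toContinuousLinearEquivOfBounds (KK S) 1
    (fun y => mn_le_norm S y)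
    (fun y => by
      rw [one_mul]
      exact norm_le_mn S ((θ S).symm y))

instance [CompleteSpace X] (S : SBas 𝕜 X) : CompleteSpace (MSp S) :=
  (completeSpace_congr (e := (Θ S).toLinearEquiv.toEquiv) (Θ S).isUniformEmbedding).mp
    inferInstance

lemma mn_x_pos [CompleteSpace X] (S : SBas 𝕜 X) (j : ℕ) : 0 < mn S (S.x j) := by
  refine lt_of_lt_of_le ?_ (norm_le_mn S _)
  rw [norm_pos_iff]
  intro h
  have h1 := S.ortho j j
  rw [h, map_zero, if_pos rfl] at h1
  exact zero_ne_one h1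

lemma coord_le [CompleteSpace X] (S : SBas 𝕜 X) (j : ℕ) (y : X) :
    mn S (S.x j) * ‖S.f j y‖ ≤ 2 * mn S y := by
  have h1 : S.f j y • S.x j = P S (j + 1) y + (-1 : 𝕜) • P S j y := by
    rw [P_apply, P_apply, Finset.sum_range_succ]
    rw [neg_one_smul]
    abel
  have h2 : mn S (S.f j y • S.x j) ≤ 2 * mn S y := by
    rw [h1]
    have h3 := mn_smul_le S (-1 : 𝕜) (P S j y)
    rw [norm_neg, norm_one, one_mul] at h3
    calc _ ≤ mn S (P S (j + 1) y) + mn S ((-1 : 𝕜) • P S j y) := mn_add S _ _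
      _ ≤ mn S y + mn S y := add_le_add (mn_P S _ y) (h3.trans (mn_P S _ y))
      _ = _ := by ring
  have h4 : ‖S.f j y‖ * mn S (S.x j) ≤ mn S (S.f j y • S.x j) := by
    have h5 : ‖θ S (S.f j y • S.x j)‖ = ‖S.f j y‖ * ‖θ S (S.x j)‖ := by
      rw [map_smul, norm_smul]
    exact h5.symm.le
  linarith

/-- The bounded biorthogonal system in the monotone norm. -/
def BB [CompleteSpace X] (S : SBas 𝕜 X) : BSys 𝕜 (MSp S) where
  x := fun j => ((((mn S (S.x j))⁻¹ : ℝ)) : 𝕜) • θ S (S.x j)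
  f := fun j => ((mn S (S.x j) : ℝ) : 𝕜) • ((S.f j : X →ₗ[𝕜] 𝕜) ∘ₗ (θ S).symm.toLinearMap)
  M := 2
  hM := by norm_num
  nx := fun j => by
    rw [norm_smul, norm_θ, RCLike.norm_ofReal, abs_of_pos (inv_pos.2 (mn_x_pos S j))]
    exact inv_mul_cancel₀ (mn_x_pos S j).ne'
  nf := fun j y => by
    obtain ⟨z, rfl⟩ := (θ S).surjective y
    rw [LinearMap.smul_apply, norm_smul, RCLike.norm_ofReal, abs_of_pos (mn_x_pos S j), norm_θ]
    exact coord_le S j z
  ortho := fun i j => by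
    rw [LinearMap.smul_apply, LinearMap.map_smul, LinearMap.comp_apply]
    have h1 : ((S.f i : X →ₗ[𝕜] 𝕜) ((θ S).symm.toLinearMap (θ S (S.x j)))) =
        if i = j then 1 else 0 := S.ortho i j
    rw [h1]
    split_ifs with h
    · subst h
      rw [smul_eq_mul, smul_eq_mul, mul_one, ← RCLike.ofReal_mul,
        mul_inv_cancel₀ (mn_x_pos S i).ne', RCLike.ofReal_one]
    · simp

/-- The multipliers. -/
def mu (n j : ℕ) : ℝ :=
  ((n : ℝ) + 1)⁻¹ * ∑ m ∈ Finset.range (n + 1), if j < n + 1 + m then (1 : ℝ) else 0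

lemma mu_nonneg (n j : ℕ) : 0 ≤ mu n j := by
  unfold mu
  refine mul_nonneg (by positivity) (Finset.sum_nonneg fun m _ => ?_)
  split_ifs <;> norm_num

lemma mu_le (n j : ℕ) : mu n j ≤ 1 := by
  unfold mu
  rw [inv_mul_le_iff₀ (by positivity), mul_one]
  calc ∑ m ∈ Finset.range (n + 1), (if j < n + 1 + m then (1 : ℝ) else 0) ≤
      ∑ m ∈ Finset.range (n + 1), (1 : ℝ) := by
        refine Finset.sum_le_sum fun m _ => ?_
        split_ifs <;> norm_num
    _ = (n : ℝ) + 1 := by simp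

lemma mu_diff (n j : ℕ) : |mu n (j + 1) - mu n j| ≤ 1 / ((n : ℝ) + 1) := by
  have hn : (0 : ℝ) < (n : ℝ) + 1 := by positivity
  have e : mu n j - mu n (j + 1) = ((n : ℝ) + 1)⁻¹ * ∑ m ∈ Finset.range (n + 1),
      if m + n = j then (1 : ℝ) else 0 := by
    unfold mu
    rw [← mul_sub, ← Finset.sum_sub_distrib]
    congr 1
    refine Finset.sum_congr rfl fun m _ => ?_
    by_cases h1 : m + n = j
    · rw [if_pos h1, if_pos (by omega), if_neg (by omega)]
      norm_num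
    · rw [if_neg h1]
      by_cases h2 : j < n + 1 + m
      · rw [if_pos h2, if_pos (by omega)]
        norm_num
      · rw [if_neg h2, if_neg (by omega)]
        norm_num
  have h0 : 0 ≤ ∑ m ∈ Finset.range (n + 1), (if m + n = j then (1 : ℝ) else 0) :=
    Finset.sum_nonneg fun m _ => by split_ifs <;> norm_num
  have h1 : ∑ m ∈ Finset.range (n + 1), (if m + n = j then (1 : ℝ) else 0) ≤ 1 := by
    rw [← Finset.sum_filter]
    simp only [Finset.sum_const, nsmul_eq_mul, mul_one]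
    have : (Finset.filter (fun m => m + n = j) (Finset.range (n + 1))).card ≤ 1 := by
      rw [Finset.card_le_one]
      intro a ha b hb
      have h2 := (Finset.mem_filter.1 ha).2
      have h3 := (Finset.mem_filter.1 hb).2
      omega
    exact_mod_cast this
  rw [abs_sub_comm, e, abs_of_nonneg (mul_nonneg (by positivity) h0), one_div]
  calc _ ≤ ((n : ℝ) + 1)⁻¹ * 1 := by gcongr
    _ = _ := mul_one _

/-- The averaged partial sum operators. -/
def TT [CompleteSpace X] (S : SBas 𝕜 X) (n : ℕ) : MSp S →ₗ[𝕜] MSp S :=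
  (((((n : ℝ) + 1)⁻¹ : ℝ)) : 𝕜) • ∑ m ∈ Finset.range (n + 1),
    ((θ S).toLinearMap ∘ₗ P S (n + 1 + m) ∘ₗ (θ S).symm.toLinearMap)

lemma TT_apply [CompleteSpace X] (S : SBas 𝕜 X) (n : ℕ) (y : X) :
    TT S n (θ S y) = θ S ((((((n : ℝ) + 1)⁻¹ : ℝ)) : 𝕜) •
      ∑ m ∈ Finset.range (n + 1), P S (n + 1 + m) y) := by
  rw [TT, LinearMap.smul_apply, LinearMap.sum_apply, map_smul, map_sum]
  rfl

lemma TT_norm [CompleteSpace X] (S : SBas 𝕜 X) (n : ℕ) (y : MSp S) : ‖TT S n y‖ ≤ ‖y‖ := by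
  obtain ⟨z, rfl⟩ := (θ S).surjective y
  have hn : (0 : ℝ) < (n : ℝ) + 1 := by positivity
  rw [TT_apply, map_smul, norm_smul, RCLike.norm_ofReal, abs_of_pos (inv_pos.2 hn), map_sum,
    inv_mul_le_iff₀ hn]
  refine (norm_sum_le _ _).trans ?_
  calc ∑ m ∈ Finset.range (n + 1), ‖θ S (P S (n + 1 + m) z)‖ ≤
      ∑ m ∈ Finset.range (n + 1), ‖θ S z‖ := Finset.sum_le_sum fun m _ => mn_P S _ z
    _ = _ := by
      rw [Finset.sum_const, Finset.card_range, nsmul_eq_mul]
      push_cast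
      ring

lemma mu_cast (n j : ℕ) : ((mu n j : ℝ) : 𝕜) = (((((n : ℝ) + 1)⁻¹ : ℝ)) : 𝕜) *
    ∑ m ∈ Finset.range (n + 1), if j < n + 1 + m then (1 : 𝕜) else 0 := by
  unfold mu
  rw [RCLike.ofReal_mul, RCLike.ofReal_sum]
  congr 1
  refine Finset.sum_congr rfl fun m _ => ?_
  split_ifs <;> simp

lemma TT_x [CompleteSpace X] (S : SBas 𝕜 X) (n j : ℕ) :
    TT S n ((BB S).x j) = ((mu n j : ℝ) : 𝕜) • (BB S).x j := by
  have h1 : TT S n (θ S (S.x j)) = ((mu n j : ℝ) : 𝕜) • θ S (S.x j) := by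
    rw [TT_apply, ← map_smul]
    congr 1
    simp only [P_x]
    rw [mu_cast, mul_smul, Finset.sum_smul]
    congr 1
    refine Finset.sum_congr rfl fun m _ => ?_
    split_ifs <;> simp
  show TT S n (((((mn S (S.x j))⁻¹ : ℝ)) : 𝕜) • θ S (S.x j)) = _
  rw [map_smul, h1]
  exact smul_comm _ _ _

lemma TT_f [CompleteSpace X] (S : SBas 𝕜 X) (n j : ℕ) (y : MSp S) :
    (BB S).f j (TT S n y) = ((mu n j : ℝ) : 𝕜) * (BB S).f j y := by
  obtain ⟨z, rfl⟩ := (θ S).surjective y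
  have h0 : ∀ w : X, (BB S).f j (θ S w) = ((mn S (S.x j) : ℝ) : 𝕜) * S.f j w := fun w => rfl
  rw [TT_apply, h0, h0, map_smul, map_sum]
  simp only [f_P]
  rw [mu_cast, smul_eq_mul]
  have h1 : ∑ m ∈ Finset.range (n + 1), (if j < n + 1 + m then S.f j z else 0) =
      (∑ m ∈ Finset.range (n + 1), if j < n + 1 + m then (1 : 𝕜) else 0) * S.f j z := by
    rw [Finset.sum_mul]
    refine Finset.sum_congr rfl fun m _ => ?_
    split_ifs <;> simp
  rw [h1]
  ring

lemma TT_N [CompleteSpace X] (S : SBas 𝕜 X) (n : ℕ) (y : MSp S) :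
    (BB S).N (TT S n y) ≤ (1 + 4 / ((n : ℝ) + 1)) * (BB S).N y := by
  have h := (BB S).N_mult (TT S n) (TT_norm S n) (mu n) (1 / ((n : ℝ) + 1)) (mu_nonneg n)
    (mu_le n) (mu_diff n) (TT_x S n) (TT_f S n) y
  have e : 1 + 2 * (BB S).M * (1 / ((n : ℝ) + 1)) = 1 + 4 / ((n : ℝ) + 1) := by
    show 1 + 2 * 2 * (1 / ((n : ℝ) + 1)) = _
    ring
  rwa [e] at h

lemma TT_mem [CompleteSpace X] (S : SBas 𝕜 X) (n : ℕ) (y : MSp S) :
    TT S n y ∈ Submodule.map (θ S).toLinearMap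
      (Submodule.span 𝕜 (S.x '' (Finset.range (2 * n + 2) : Set ℕ))) := by
  obtain ⟨z, rfl⟩ := (θ S).surjective y
  rw [TT_apply]
  refine ⟨_, Submodule.smul_mem _ _ (Submodule.sum_mem _ fun m hm => ?_), rfl⟩
  rw [P_apply]
  refine Submodule.sum_mem _ fun j hj => Submodule.smul_mem _ _ (Submodule.subset_span ⟨j, ?_, rfl⟩)
  rw [Finset.mem_range] at hm hj
  rw [Finset.mem_coe, Finset.mem_range]
  omega

lemma TT_P [CompleteSpace X] (S : SBas 𝕜 X) (N n : ℕ) (h : N ≤ n) (y : X) :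
    TT S n (θ S (P S N y)) = θ S (P S N y) := by
  rw [TT_apply]
  have h1 : ∀ m ∈ Finset.range (n + 1), P S (n + 1 + m) (P S N y) = P S N y := by
    intro m _
    rw [P_P, min_eq_right (by omega)]
  rw [Finset.sum_congr rfl h1, Finset.sum_const, Finset.card_range]
  congr 1
  rw [← Nat.cast_smul_eq_nsmul 𝕜, smul_smul]
  have h2 : (((((n : ℝ) + 1)⁻¹ : ℝ)) : 𝕜) * ((n + 1 : ℕ) : 𝕜) = 1 := by
    have h3 : ((n + 1 : ℕ) : 𝕜) = (((n : ℝ) + 1 : ℝ) : 𝕜) := by push_cast; rfl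
    rw [h3, ← RCLike.ofReal_mul, inv_mul_cancel₀ (by positivity), RCLike.ofReal_one]
  rw [h2, one_smul]

lemma TT_tendsto [CompleteSpace X] (S : SBas 𝕜 X) (y : MSp S) :
    Tendsto (fun n => TT S n y) atTop (𝓝 y) := by
  obtain ⟨z, rfl⟩ := (θ S).surjective y
  rw [Metric.tendsto_atTop]
  intro ε hε
  have h1 : Tendsto (fun n => θ S (P S n z)) atTop (𝓝 (θ S z)) := by
    have := ((Θ S).continuous.tendsto z).comp (S.conv z)
    refine this.congr fun n => ?_
    rw [P_apply]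
    rfl
  obtain ⟨N, hN⟩ := (Metric.tendsto_atTop.1 h1) (ε / 2) (by positivity)
  refine ⟨N, fun n hn => ?_⟩
  have h2 := hN N le_rfl
  rw [dist_eq_norm] at h2 ⊢
  have e : TT S n (θ S z) - θ S z = (θ S (P S N z) - θ S z) - TT S n (θ S (P S N z) - θ S z) := by
    rw [map_sub, TT_P S N n hn]
    abel
  rw [e]
  calc _ ≤ ‖θ S (P S N z) - θ S z‖ + ‖TT S n (θ S (P S N z) - θ S z)‖ := norm_sub_le _ _
    _ ≤ ‖θ S (P S N z) - θ S z‖ + ‖θ S (P S N z) - θ S z‖ := by
        gcongr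
        exact TT_norm S n _
    _ < ε := by linarith

/-- The scaling constants. -/
def cc (n : ℕ) : ℝ := (1 + 4 / ((n : ℝ) + 1))⁻¹

lemma cc_pos (n : ℕ) : 0 < cc n := by unfold cc; positivity

lemma cc_tendsto : Tendsto cc atTop (𝓝 1) := by
  have h1 : Tendsto (fun n : ℕ => 4 * (1 / ((n : ℝ) + 1))) atTop (𝓝 (4 * 0)) :=
    tendsto_one_div_add_atTop_nhds_zero_nat.const_mul 4
  have h2 : Tendsto (fun n : ℕ => 1 + 4 / ((n : ℝ) + 1)) atTop (𝓝 1) := by
    have := h1.const_add 1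
    simp only [mul_zero, add_zero] at this
    refine this.congr fun n => ?_
    ring
  have h3 := h2.inv₀ one_ne_zero
  rw [inv_one] at h3
  exact h3

/-- The approximating operators. -/
def RR [CompleteSpace X] (S : SBas 𝕜 X) (n : ℕ) : NSp (BB S) →L[𝕜] NSp (BB S) :=
  LinearMap.mkContinuous ((ψ (BB S)).toLinearMap ∘ₗ (((cc n : ℝ) : 𝕜) • TT S n) ∘ₗ
    (ψ (BB S)).symm.toLinearMap) 1 (fun x => by
      obtain ⟨y, rfl⟩ := (ψ (BB S)).surjective x
      rw [LinearMap.comp_apply, LinearMap.comp_apply, LinearEquiv.coe_coe, LinearEquiv.coe_coe,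
        LinearEquiv.symm_apply_apply, norm_ψ, norm_ψ, LinearMap.smul_apply, map_smul_eq_mul,
        RCLike.norm_ofReal, abs_of_pos (cc_pos n), one_mul, cc,
        inv_mul_le_iff₀ (by positivity)]
      exact TT_N S n y)

lemma RR_apply [CompleteSpace X] (S : SBas 𝕜 X) (n : ℕ) (y : MSp S) :
    RR S n (Ψ (BB S) y) = Ψ (BB S) (((cc n : ℝ) : 𝕜) • TT S n y) := rfl

/-- The renormed space has the metric approximation property. -/
theorem hasMAP_BB [CompleteSpace X] (S : SBas 𝕜 X) : HasMAP 𝕜 (NSp (BB S)) := by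
  refine hasMAP_of_seq (RR S) (fun n => ?_) (fun n => LinearMap.mkContinuous_norm_le _ zero_le_one _)
    (fun x => ?_)
  · have hf : FiniteDimensional 𝕜 (Submodule.map (ψ (BB S)).toLinearMap
        (Submodule.map (θ S).toLinearMap
          (Submodule.span 𝕜 (S.x '' (Finset.range (2 * n + 2) : Set ℕ))))) := by
      have : FiniteDimensional 𝕜
          (Submodule.span 𝕜 (S.x '' (Finset.range (2 * n + 2) : Set ℕ))) :=
        FiniteDimensional.span_of_finite 𝕜 ((Finset.finite_toSet _).image S.x)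
      infer_instance
    refine Submodule.finiteDimensional_of_le (S₂ := Submodule.map (ψ (BB S)).toLinearMap
        (Submodule.map (θ S).toLinearMap
          (Submodule.span 𝕜 (S.x '' (Finset.range (2 * n + 2) : Set ℕ))))) ?_
    rintro _ ⟨x, rfl⟩
    exact ⟨_, Submodule.smul_mem _ _ (TT_mem S n ((ψ (BB S)).symm x)), rfl⟩
  · obtain ⟨y, rfl⟩ := (Ψ (BB S)).surjective x
    simp only [RR_apply]
    refine ((Ψ (BB S)).continuous.tendsto y).comp ?_
    have h1 : Tendsto (fun n => ((cc n : ℝ) : 𝕜)) atTop (𝓝 ((1 : ℝ) : 𝕜)) :=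
      (RCLike.continuous_ofReal.tendsto 1).comp cc_tendsto
    have h2 := h1.smul (TT_tendsto S y)
    rwa [RCLike.ofReal_one, one_smul] at h2

end

end Pool.Agent.Y496.SB
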